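import Pool.Agent.Helper98.GX.St4

/-!
# Project GX (MP_140278_ag), module SEC: linear combinations of sections in one block
-/

set_option autoImplicit false

namespace Pool.Agent.Helper13.GX

open scoped BigOperators
open Pool.Agent.Helper98.GX
open Pool.Agent.Helper53.CX (DivVal LinSys IsNefCartier)

private lemma ord_one {K : Type} [Field K] [Algebra ℂ K] (v : DivVal K) : v.ord 1 = 0 := by
  have h := v.ord_mul 1 1 one_ne_zero one_ne_zero
  rw [mul_one] at h
  omega

private lemma ord_const {K : Type} [Field K] [Algebra ℂ K] (v : DivVal K) (c : ℂ) (hc : c ≠ 0) :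
    v.ord (algebraMap ℂ K c) = 0 := by
  obtain ⟨R, _, hR, _⟩ := v.exists_model
  have hinj : Function.Injective (algebraMap ℂ K) := (algebraMap ℂ K).injective
  have h0 : algebraMap ℂ K c ≠ 0 := by
    rw [Ne, map_eq_zero_iff _ hinj]; exact hc
  have h1 : algebraMap ℂ K c⁻¹ ≠ 0 := by
    rw [Ne, map_eq_zero_iff _ hinj]; exact inv_ne_zero hc
  have a1 := hR _ (R.algebraMap_mem c) h0
  have a2 := hR _ (R.algebraMap_mem c⁻¹) h1
  have a3 := v.ord_mul _ _ h0 h1
  rw [← map_mul, mul_inv_cancel₀ hc, map_one, ord_one] at a3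
  omega

private lemma ord_sum {K : Type} [Field K] [Algebra ℂ K] (v : DivVal K) (C : ℤ) {ι : Type}
    (s : Finset ι) (f : ι → K) (hf : ∀ a ∈ s, f a = 0 ∨ C ≤ v.ord (f a)) :
    ∑ a ∈ s, f a = 0 ∨ C ≤ v.ord (∑ a ∈ s, f a) := by
  classical
  induction s using Finset.induction_on with
  | empty => left; rfl
  | insert b s hb ih =>
    have ih' := ih (fun a ha => hf a (Finset.mem_insert_of_mem ha))
    rw [Finset.sum_insert hb]
    by_cases h0 : f b = 0
    · rw [h0, zero_add]; exact ih'
    by_cases h1 : ∑ a ∈ s, f a = 0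
    · rw [h1, add_zero]; exact hf b (Finset.mem_insert_self _ _)
    by_cases h2 : f b + ∑ a ∈ s, f a = 0
    · left; exact h2
    right
    have e1 := (hf b (Finset.mem_insert_self _ _)).resolve_left h0
    have e2 := ih'.resolve_left h1
    exact le_trans (le_min e1 e2) (v.ord_add _ _ h0 h1 h2)

private lemma sec_ne {K : Type} [Field K] [Algebra ℂ K] {V : NormalProj K} {r : ℕ}
    {B : ClassBasis V r} {n : ℕ} {L : LogCoord K n} (hLPX : StLPX) (Fr : Frame B L) (k : Fin r)
    (x : Fin (n + r) → ℂ) (hx : x ∈ Blk Fr.bl k) (hx0 : x ≠ 0) : Fr.sec x ≠ 0 := by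
  classical
  intro hs
  choose β hβ using Fr.surj
  obtain ⟨L', e, hc⟩ := hLPX K V r B n L Fr β hβ
  have hxz : ∀ a, Fr.bl a ≠ k → x a = 0 := hx
  have hnot : β k ∉ Finset.univ.image e := by
    intro h
    obtain ⟨j, _, hj⟩ := Finset.mem_image.mp h
    exact ((hc.range (β k)).mp ⟨j, hj⟩) (by rw [hβ])
  have hout : ∀ a, Fr.bl a = k → a = β k ∨ ∃ j, e j = a := by
    intro a ha
    by_cases h : a = β (Fr.bl a)
    · left; rw [h, ha]
    · right; exact (hc.range a).mpr h
  have hsum : Fr.sec x = Fr.g (β k) * MvPolynomial.aeval L'.z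
      (MvPolynomial.C (x (β k)) + ∑ j, MvPolynomial.C (x (e j)) * MvPolynomial.X j) := by
    have h1 : Fr.sec x = algebraMap ℂ K (x (β k)) * Fr.g (β k) +
        ∑ j, algebraMap ℂ K (x (e j)) * Fr.g (e j) := by
      unfold Frame.sec
      rw [← Finset.sum_image (s := Finset.univ) (g := e)
        (f := fun a => algebraMap ℂ K (x a) * Fr.g a) (fun i _ j _ h => hc.inj h),
        ← Finset.sum_insert (f := fun a => algebraMap ℂ K (x a) * Fr.g a) hnot]
      refine (Finset.sum_subset (Finset.subset_univ _) ?_).symm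
      intro a _ ha
      have hne : Fr.bl a ≠ k := by
        intro hk
        rcases hout a hk with h | ⟨j, hj⟩
        · exact ha (by rw [h]; exact Finset.mem_insert_self _ _)
        · exact ha (Finset.mem_insert_of_mem (Finset.mem_image.mpr ⟨j, Finset.mem_univ _, hj⟩))
      rw [hxz a hne, map_zero, zero_mul]
    rw [h1, map_add, map_sum, mul_add, Finset.mul_sum]
    congr 1
    · rw [MvPolynomial.aeval_C, mul_comm]
    · refine Finset.sum_congr rfl fun j _ => ?_
      rw [map_mul, MvPolynomial.aeval_C, MvPolynomial.aeval_X]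
      by_cases hk : Fr.bl (e j) = k
      · rw [hc.z_eq j, hk]
        have := Fr.ne (β k)
        field_simp
      · rw [hxz _ hk]; simp
  rw [hs] at hsum
  have h2 := (mul_eq_zero.mp hsum.symm).resolve_left (Fr.ne (β k))
  have hai : AlgebraicIndependent ℂ L'.z := L'.basis.1
  have h3 : (MvPolynomial.C (x (β k)) +
      ∑ j, MvPolynomial.C (x (e j)) * MvPolynomial.X j : MvPolynomial (Fin n) ℂ) = 0 :=
    hai.eq_zero_of_aeval_eq_zero _ h2
  apply hx0
  funext a
  rw [Pi.zero_apply]
  by_cases hk : Fr.bl a = k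
  · rcases hout a hk with h | ⟨j, hj⟩
    · have h4 := congrArg (MvPolynomial.coeff 0) h3
      rw [MvPolynomial.coeff_add, MvPolynomial.coeff_C, if_pos rfl, MvPolynomial.coeff_sum,
        MvPolynomial.coeff_zero] at h4
      rw [h]
      rw [Finset.sum_eq_zero, add_zero] at h4
      · exact h4
      · intro j _
        rw [MvPolynomial.coeff_C_mul, MvPolynomial.coeff_X, if_neg, mul_zero]
        intro h5
        have := DFunLike.congr_fun h5 j
        simp at this
    · have h4 := congrArg (MvPolynomial.coeff (Finsupp.single j 1)) h3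
      rw [MvPolynomial.coeff_add, MvPolynomial.coeff_C, if_neg, MvPolynomial.coeff_sum,
        MvPolynomial.coeff_zero, zero_add, Finset.sum_eq_single j] at h4
      · rw [MvPolynomial.coeff_C_mul, MvPolynomial.coeff_X, if_pos rfl, mul_one] at h4
        rw [← hj]; exact h4
      · intro i _ hij
        rw [MvPolynomial.coeff_C_mul, MvPolynomial.coeff_X, if_neg, mul_zero]
        intro h5
        have := DFunLike.congr_fun h5 i
        rw [Finsupp.single_eq_same, Finsupp.single_apply, if_neg (Ne.symm hij)] at this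
        exact one_ne_zero this
      · intro h; exact absurd (Finset.mem_univ _) h
      · intro h5
        have := DFunLike.congr_fun h5 j
        simp at this
  · exact hxz a hk

theorem hSEC (hLPX : StLPX) : StSEC := by
  classical
  intro K _ _ V r B n L Fr
  refine ⟨fun k x hx hx0 => sec_ne hLPX Fr k x hx hx0, ?_⟩
  intro v k W hW hW0
  have hne : {m : ℤ | ∃ x ∈ W, x ≠ 0 ∧ v.ord (Fr.sec x) = m}.Nonempty := by
    obtain ⟨x, hx, hx0⟩ := (Submodule.ne_bot_iff W).mp hW0
    exact ⟨_, x, hx, hx0, rfl⟩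
  have hbd : BddBelow {m : ℤ | ∃ x ∈ W, x ≠ 0 ∧ v.ord (Fr.sec x) = m} := by
    refine ⟨- ∑ a, |v.ord (Fr.g a)|, ?_⟩
    rintro m ⟨x, hx, hx0, rfl⟩
    have h1 := sec_ne hLPX Fr k x (hW hx) hx0
    have h2 := ord_sum v (- ∑ a, |v.ord (Fr.g a)|) Finset.univ
      (fun a => algebraMap ℂ K (x a) * Fr.g a) (by
        intro a _
        by_cases hxa : x a = 0
        · left
          show algebraMap ℂ K (x a) * Fr.g a = 0
          rw [hxa, map_zero, zero_mul]
        · right
          have hxa' : algebraMap ℂ K (x a) ≠ 0 := by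
            rw [Ne, map_eq_zero_iff _ (algebraMap ℂ K).injective]; exact hxa
          show _ ≤ v.ord (algebraMap ℂ K (x a) * Fr.g a)
          rw [v.ord_mul _ _ hxa' (Fr.ne a), ord_const v _ hxa, zero_add]
          have h3 : |v.ord (Fr.g a)| ≤ ∑ a, |v.ord (Fr.g a)| :=
            Finset.single_le_sum (f := fun a => |v.ord (Fr.g a)|)
              (fun b _ => abs_nonneg _) (Finset.mem_univ a)
          have h4 := neg_abs_le (v.ord (Fr.g a))
          linarith)
    exact h2.resolve_left h1
  refine ⟨fun x hx hx0 => csInf_le hbd ⟨x, hx, hx0, rfl⟩, ?_⟩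
  obtain ⟨x, hx, hx0, h⟩ := Int.csInf_mem hne hbd
  exact ⟨x, hx, hx0, h⟩

end Pool.Agent.Helper13.GX
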