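import Pool.Agent.Helper98.GX.St

/-!
# Project GX, module SUM: the main inequality (finite sums)
-/

set_option autoImplicit false

open scoped BigOperators

namespace Pool.Agent.Helper13.GX

open Pool.Agent.Helper98.GX
open Pool.Agent.Helper53.CX (DivVal LinSys IsNefCartier)

private theorem z_ne {K : Type} [Field K] [Algebra ℂ K] {n : ℕ} (L : LogCoord K n) (j : Fin n) :
    L.z j ≠ 0 := L.basis.1.ne_zero j

/-- a finite sum over the primes -/
private theorem conv {α : Type} {s : Set α} {F : Finset α} (hF : (F : Set α) ⊆ s) (f : α → ℤ)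
    (h : ∀ q ∈ s, q ∉ F → f q = 0) : ∑ᶠ q ∈ s, f q = ∑ q ∈ F, f q := by
  apply finsum_mem_eq_sum_of_inter_support_eq
  ext q
  simp only [Set.mem_inter_iff, Function.mem_support, Finset.mem_coe]
  constructor
  · rintro ⟨h1, h2⟩
    refine ⟨?_, h2⟩
    by_contra h3
    exact h2 (h q h1 h3)
  · rintro ⟨h1, h2⟩
    exact ⟨hF h1, h2⟩

/-- SUM. -/
theorem hSUM (hLAM : StLAM) (hJLB : StJLB) : StSUM := by
  classical
  intro K _ _ n L V0 E ι _ S p hp hS
  -- the exceptional set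
  set X : Set (DivVal K) := {q | q ∈ V0.primes ∧ ((∃ f ∈ p.g.support, f ≠ 0 ∧ q.ord f ≠ 0) ∨
    (∃ i, p.M i q ≠ 0) ∨ ∃ j, q.ord (L.z j) ≠ 0)} with hX
  have hfin : X.Finite := by
    have h1 : (⋃ f ∈ p.g.support, {q : DivVal K | f ≠ 0 ∧ q ∈ V0.primes ∧ q.ord f ≠ 0}).Finite := by
      refine Set.Finite.biUnion p.g.support.finite_toSet fun f _ => ?_
      by_cases hf : f = 0
      · subst hf
        simp
      · exact (E.finite f hf).subset fun q hq => hq.2
    have h2 : (⋃ i, {q : DivVal K | q ∈ V0.primes ∧ p.M i q ≠ 0}).Finite :=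
      Set.finite_iUnion fun i => (hLAM K V0 E (p.M i) (hp.nef i) (hp.nontrivial i)).1
    have h3 : (⋃ j, {q : DivVal K | q ∈ V0.primes ∧ q.ord (L.z j) ≠ 0}).Finite :=
      Set.finite_iUnion fun j => E.finite _ (z_ne L j)
    refine ((h1.union h2).union h3).subset ?_
    rintro q ⟨hq, ⟨f, hf, hf0, hfq⟩ | ⟨i, hi⟩ | ⟨j, hj⟩⟩
    · refine Or.inl (Or.inl ?_)
      simp only [Set.mem_iUnion]
      exact ⟨f, hf, hf0, hq, hfq⟩
    · refine Or.inl (Or.inr ?_)
      simp only [Set.mem_iUnion]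
      exact ⟨i, hq, hi⟩
    · refine Or.inr ?_
      simp only [Set.mem_iUnion]
      exact ⟨j, hq, hj⟩
  set F : Finset (DivVal K) := hfin.toFinset with hF
  have hFX : ∀ q, q ∈ F ↔ q ∈ X := fun q => hfin.mem_toFinset
  have hFs : (F : Set (DivVal K)) ⊆ V0.primes := fun q hq => ((hFX q).1 hq).1
  have hB0 : ∀ q ∈ V0.primes, 0 ≤ p.B L q := by
    intro q hq
    rcases hS q hq with h | h
    · exact hp.effective q h
    · rw [h]; norm_num
  -- outside of the exceptional set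
  have hout : ∀ q ∈ V0.primes, q ∉ F → (∀ f ∈ p.g.support, q.ord f = 0) ∧ (∀ i, p.M i q = 0) ∧
      (∀ j, q.ord (L.z j) = 0) ∧ p.B L q = 0 ∧ ordOmega L q = 0 := by
    intro q hq hqF
    have hqX : q ∉ X := fun h => hqF ((hFX q).2 h)
    have h1 : ∀ f ∈ p.g.support, q.ord f = 0 := by
      intro f hf
      by_contra h
      by_cases hf0 : f = 0
      · rw [hf0, q.ord_zero] at h
        exact h rfl
      · exact hqX ⟨hq, Or.inl ⟨f, hf, hf0, h⟩⟩
    have h2 : ∀ i, p.M i q = 0 := by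
      intro i
      by_contra h
      exact hqX ⟨hq, Or.inr (Or.inl ⟨i, h⟩)⟩
    have h3 : ∀ j, q.ord (L.z j) = 0 := by
      intro j
      by_contra h
      exact hqX ⟨hq, Or.inr (Or.inr ⟨j, h⟩)⟩
    have h4 : rdiv p.g q = 0 := by
      unfold rdiv Finsupp.sum
      refine Finset.sum_eq_zero fun f hf => ?_
      show p.g f * (q.ord f : ℝ) = 0
      rw [h1 f hf]
      simp
    have h5 : p.B L q = -(ordOmega L q : ℝ) := by
      unfold PairData.B
      rw [h4, Finset.sum_eq_zero fun i _ => by rw [h2 i]; simp]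
      ring
    have h6 : 0 ≤ ordOmega L q := (hJLB K n L q).2 h3
    have h6' : (0 : ℝ) ≤ (ordOmega L q : ℝ) := by exact_mod_cast h6
    have h7 := hB0 q hq
    have h8 : (ordOmega L q : ℝ) = 0 := by linarith
    refine ⟨h1, h2, h3, by rw [h5, h8, neg_zero], by exact_mod_cast h8⟩
  -- the three sums
  have hOm : ∑ᶠ q ∈ V0.primes, (E.lam q : ℤ) * ordOmega L q =
      ∑ q ∈ F, (E.lam q : ℤ) * ordOmega L q :=
    conv hFs _ fun q hq hqF => by rw [(hout q hq hqF).2.2.2.2, mul_zero]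
  have hlog : E.logDisc L = (E.κ : ℤ) * (ordOmega L E.w + 1) -
      ∑ q ∈ F, (E.lam q : ℤ) * ordOmega L q := by
    unfold VertexVal.logDisc
    rw [hOm]
  have hM : ∀ i, 1 + (E.κ : ℤ) * p.M i E.w ≤ ∑ q ∈ F, (E.lam q : ℤ) * p.M i q := by
    intro i
    have h1 := (hLAM K V0 E (p.M i) (hp.nef i) (hp.nontrivial i)).2
    rw [conv hFs _ fun q hq hqF => by rw [(hout q hq hqF).2.1 i, mul_zero]] at h1
    linarith
  have hG : ∀ f ∈ p.g.support, ∑ q ∈ F, (E.lam q : ℤ) * q.ord f = (E.κ : ℤ) * E.w.ord f := by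
    intro f hf
    by_cases hf0 : f = 0
    · subst hf0
      rw [E.w.ord_zero, mul_zero]
      exact Finset.sum_eq_zero fun q _ => by rw [q.ord_zero, mul_zero]
    · rw [← E.lin f hf0]
      exact (conv hFs _ fun q hq hqF => by rw [(hout q hq hqF).1 f hf, mul_zero]).symm
  have hR : ∑ q ∈ F, (E.lam q : ℝ) * rdiv p.g q = (E.κ : ℝ) * rdiv p.g E.w := by
    have hrd : ∀ q : DivVal K, rdiv p.g q = ∑ f ∈ p.g.support, p.g f * (q.ord f : ℝ) :=
      fun q => rfl
    rw [hrd E.w, Finset.mul_sum, Finset.sum_congr rfl fun q _ => by rw [hrd q, Finset.mul_sum],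
      Finset.sum_comm]
    refine Finset.sum_congr rfl fun f hf => ?_
    have h1 : ∑ q ∈ F, (E.lam q : ℝ) * (q.ord f : ℝ) = (E.κ : ℝ) * (E.w.ord f : ℝ) := by
      exact_mod_cast hG f hf
    calc ∑ q ∈ F, (E.lam q : ℝ) * (p.g f * (q.ord f : ℝ))
        = p.g f * ∑ q ∈ F, (E.lam q : ℝ) * (q.ord f : ℝ) := by
          rw [Finset.mul_sum]
          exact Finset.sum_congr rfl fun q _ => by ring
      _ = _ := by rw [h1]; ring
  refine ⟨⟨F, hFs, fun q hq hqF => (hout q hq hqF).2.2.2.1, ?_⟩, ?_⟩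
  · -- the inequality
    have h1 : ∑ q ∈ F, p.B L q ≤ ∑ q ∈ F, (E.lam q : ℝ) * p.B L q := by
      refine Finset.sum_le_sum fun q hq => ?_
      have hq' := hFs hq
      have h2 : (1 : ℝ) ≤ (E.lam q : ℝ) := by exact_mod_cast E.one_le q hq'
      nlinarith [hB0 q hq']
    have h2 : ∑ q ∈ F, (E.lam q : ℝ) * p.B L q =
        ∑ q ∈ F, (E.lam q : ℝ) * rdiv p.g q - ∑ q ∈ F, (E.lam q : ℝ) * (ordOmega L q : ℝ) -
          ∑ i, p.b i * ∑ q ∈ F, (E.lam q : ℝ) * (p.M i q : ℝ) := by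
      have h3 : ∑ i, p.b i * ∑ q ∈ F, (E.lam q : ℝ) * (p.M i q : ℝ) =
          ∑ q ∈ F, (E.lam q : ℝ) * ∑ i, p.b i * (p.M i q : ℝ) := by
        simp_rw [Finset.mul_sum]
        rw [Finset.sum_comm]
        refine Finset.sum_congr rfl fun q _ => Finset.sum_congr rfl fun i _ => ?_
        ring
      rw [h3, ← Finset.sum_sub_distrib, ← Finset.sum_sub_distrib]
      refine Finset.sum_congr rfl fun q _ => ?_
      unfold PairData.B
      ring
    have h4 : ∑ i, p.b i * (1 + (E.κ : ℝ) * (p.M i E.w : ℝ)) ≤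
        ∑ i, p.b i * ∑ q ∈ F, (E.lam q : ℝ) * (p.M i q : ℝ) := by
      refine Finset.sum_le_sum fun i _ => mul_le_mul_of_nonneg_left ?_ (hp.b_nonneg i)
      have := hM i
      exact_mod_cast this
    have h5 : ∑ i, p.b i * (1 + (E.κ : ℝ) * (p.M i E.w : ℝ)) =
        ∑ i, p.b i + (E.κ : ℝ) * ∑ i, p.b i * (p.M i E.w : ℝ) := by
      rw [Finset.mul_sum, ← Finset.sum_add_distrib]
      exact Finset.sum_congr rfl fun i _ => by ring
    have h6 : p.B L E.w = rdiv p.g E.w - (ordOmega L E.w : ℝ) -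
      ∑ i, p.b i * (p.M i E.w : ℝ) := rfl
    have h7 := hp.glc E.w
    have h8 : (0 : ℝ) ≤ (E.κ : ℝ) := Nat.cast_nonneg _
    have h9 : (E.κ : ℝ) * p.B L E.w ≤ (E.κ : ℝ) * 1 := mul_le_mul_of_nonneg_left h7 h8
    rw [h6] at h9
    rw [hlog]
    push_cast
    rw [hR] at h2
    nlinarith [h1, h2, h4, h5, h9]
  · -- the second part
    intro Y hY
    rw [hlog]
    have h1 : -∑ q ∈ F, (E.lam q : ℤ) * ordOmega L q ≤ ∑ q ∈ Y, (E.lam q : ℤ) := by
      rw [← Finset.sum_neg_distrib]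
      calc ∑ q ∈ F, -((E.lam q : ℤ) * ordOmega L q)
          ≤ ∑ q ∈ F, (if q ∈ Y then (E.lam q : ℤ) else 0) := by
            refine Finset.sum_le_sum fun q hq => ?_
            have hl : (0 : ℤ) ≤ (E.lam q : ℤ) := Int.natCast_nonneg _
            split_ifs with hqY
            · have h2 := (hJLB K n L q).1
              nlinarith
            · have h2 : 0 ≤ ordOmega L q := by
                refine (hJLB K n L q).2 fun j => ?_
                by_contra h3
                exact hqY (hY q (hFs hq) ⟨j, h3⟩)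
              nlinarith
        _ = ∑ q ∈ F ∩ Y, (E.lam q : ℤ) := by
            rw [Finset.sum_ite_mem]
        _ ≤ ∑ q ∈ Y, (E.lam q : ℤ) := by
            refine Finset.sum_le_sum_of_subset_of_nonneg Finset.inter_subset_right ?_
            intro q _ _
            exact Int.natCast_nonneg _
    linarith

end Pool.Agent.Helper13.GX
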